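import Mathlib

/-!
# Graphs on `ω₂²` with chromatic number `ℵ₁` (MP_d06690_lc, Q1): what the question asks

In ZFC, Q1 has a positive answer if and only if there is a graph with `ℵ₂` vertices and uncountable
chromatic number all of whose subgraphs on at most `ℵ₁` vertices are countably chromatic.  So the
order types below `ω₂²` are not the issue, only the cardinalities are, and the exact value `ℵ₁` of the
chromatic number is not the issue either.

Idea of the proof.  Let `H` be a graph as on the right hand side.  Multiply it by the complete graph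
on `ω₁` (which makes the chromatic number exactly `ℵ₁` and keeps it uncountable) and transfer the
result to a graph `R` on `ω₂`.  On the points `(a, b)` of `ω₂ × ω₂` join `(a, b)` and `(a', b')` when
`a < a' < b < b'` and `R a a'`.  For a countable colouring of the points, every column `a` has a colour
which is used cofinally often, and two `R`-adjacent columns with the same such colour give a
monochromatic edge.  A set `S` of points of type less than `ω₂²` has bounded sections from some column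
on, say `b < g a`; then for joined points in this part of `S` the column `a'` lies below every closure
point of `g` above `a`, so this part splits into blocks, each living on `ℵ₁` columns; the remaining part
of `S` lives on `ℵ₁` columns as well.
-/

open Cardinal Ordinal Set

namespace Pool.Agent.Results.MP_d06690_lc.Reduction

/-- the ordinal `ω₂` -/
noncomputable abbrev w2 : Ordinal.{0} := (Cardinal.aleph.{0} 2).ord

/-- the ordinal `ω₁` -/
noncomputable abbrev w1 : Ordinal.{0} := (Cardinal.aleph.{0} 1).ord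

/-- The statement asked in Q1, word for word as in the frozen Lean statement: a graph on `ω₂²` which is
`ω₁`-colourable, not countably colourable, and countably colourable on every set of vertices of order
type less than `ω₂²`. -/
def Q1 : Prop :=
  ∃ G : SimpleGraph (Set.Iio ((Cardinal.aleph.{0} 2).ord ^ 2)),
      Nonempty (G.Coloring (Set.Iio (Cardinal.aleph.{0} 1).ord)) ∧
      IsEmpty (G.Coloring ℕ) ∧
      ∀ S : Set (Set.Iio ((Cardinal.aleph.{0} 2).ord ^ 2)),
        (∃ γ : Ordinal.{0}, γ < (Cardinal.aleph.{0} 2).ord ^ 2 ∧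
          ∃ f : S → Ordinal.{0},
            (∀ x y : S, x.1.1 < y.1.1 → f x < f y) ∧ ∀ x : S, f x < γ) →
        Nonempty ((G.induce S).Coloring ℕ)

/-- Incompactness of the countable chromatic number at `ℵ₂`: there is a graph with `ℵ₂` vertices and
uncountable chromatic number all of whose subgraphs on at most `ℵ₁` vertices are countably
chromatic. -/
def Incompact : Prop :=
  ∃ (V : Type) (H : SimpleGraph V), #V = Cardinal.aleph 2 ∧ IsEmpty (H.Coloring ℕ) ∧
    ∀ W : Set V, #W ≤ Cardinal.aleph 1 → Nonempty ((H.induce W).Coloring ℕ)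

/-- The variant of Q1 in which only the sets of at most `ℵ₁` vertices are required to induce
countably chromatic graphs. -/
def Q1small : Prop :=
  ∃ G : SimpleGraph (Set.Iio ((Cardinal.aleph.{0} 2).ord ^ 2)),
      Nonempty (G.Coloring (Set.Iio (Cardinal.aleph.{0} 1).ord)) ∧
      IsEmpty (G.Coloring ℕ) ∧
      ∀ S : Set (Set.Iio ((Cardinal.aleph.{0} 2).ord ^ 2)), #S ≤ Cardinal.aleph.{1} 1 →
        Nonempty ((G.induce S).Coloring ℕ)

/-- The combinatorial form: a function of pairs from `ω₂` into `ω` such that for every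
`f : ω₂ → ω` there are `v < w` with `f v = f w` which no later row identifies. -/
def PairFunction : Prop :=
  ∃ c : w2.ToType → w2.ToType → ℕ, ∀ f : w2.ToType → ℕ,
    ∃ v w, v < w ∧ f v = f w ∧ ∀ x, w < x → c v x ≠ c w x

theorem aleph_two_eq : Cardinal.aleph.{0} 2 = Order.succ (Cardinal.aleph.{0} 1) := by
  have : (2 : Ordinal.{0}) = 1 + 1 := one_add_one_eq_two.symm
  rw [this, Cardinal.succ_aleph]

theorem isRegular_aleph_two : (Cardinal.aleph.{0} 2).IsRegular := by
  rw [aleph_two_eq]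
  exact isRegular_succ (Cardinal.aleph0_le_aleph 1)

theorem cof_w2 : w2.cof = Cardinal.aleph 2 := isRegular_aleph_two.cof_ord

theorem lt_aleph_two {c : Cardinal.{0}} : c < Cardinal.aleph 2 ↔ c ≤ Cardinal.aleph 1 := by
  rw [aleph_two_eq, Order.lt_succ_iff]

theorem w2_pos : 0 < w2 := isRegular_aleph_two.ord_pos

theorem w2_limit : Order.IsSuccLimit w2 := Cardinal.isSuccLimit_ord (Cardinal.aleph0_le_aleph 2)

theorem card_lt_of_lt {δ : Ordinal.{0}} (h : δ < w2) : δ.card ≤ Cardinal.aleph 1 := by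
  rw [← lt_aleph_two]
  exact Cardinal.lt_ord.1 h

/-- `ℵ₁` many ordinals below `ω₂` are bounded below `ω₂`. -/
theorem bdd {ι : Type} (hι : #ι ≤ Cardinal.aleph 1) (f : ι → Ordinal.{0}) (hf : ∀ i, f i < w2) :
    ∃ β < w2, ∀ i, f i < β := by
  have h1 : #ι < w2.cof := by rw [cof_w2, lt_aleph_two]; exact hι
  refine ⟨⨆ i, f i + 1, Ordinal.iSup_add_one_lt_of_lt_cof h1 hf, fun i => ?_⟩
  exact Ordinal.lt_iSup_add_one f i

/-- The same for a family indexed by the ordinals below `δ < ω₂`. -/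
theorem bdd' {δ : Ordinal.{0}} (hδ : δ < w2) (f : Ordinal.{0} → Ordinal.{0})
    (hf : ∀ c < δ, f c < w2) : ∃ β < w2, ∀ c < δ, f c < β := by
  have h1 : #(δ.ToType) ≤ Cardinal.aleph 1 := by
    rw [Cardinal.mk_toType]; exact card_lt_of_lt hδ
  obtain ⟨β, hβ, h⟩ := bdd h1 (fun i => f (Ordinal.ToType.mk.symm i).1)
    (fun i => hf _ (Ordinal.ToType.mk.symm i).2)
  refine ⟨β, hβ, fun c hc => ?_⟩
  have := h (Ordinal.ToType.mk ⟨c, hc⟩)
  simpa using this

theorem succ_lt {β : Ordinal.{0}} (h : β < w2) : β + 1 < w2 := by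
  have := w2_limit.succ_lt h
  rwa [Order.succ_eq_add_one] at this

theorem sq_eq : w2 ^ 2 = w2 * w2 := by
  rw [sq]

theorem div_lt {x : Ordinal.{0}} (h : x < w2 ^ 2) : x / w2 < w2 := by
  rw [sq_eq] at h
  exact (Ordinal.lt_mul_iff_div_lt w2_pos.ne').1 h

theorem mod_lt (x : Ordinal.{0}) : x % w2 < w2 := Ordinal.mod_lt x w2_pos.ne'

theorem pt_lt {a b : Ordinal.{0}} (ha : a < w2) (hb : b < w2) : w2 * a + b < w2 ^ 2 := by
  rw [sq_eq, Ordinal.lt_mul_iff_div_lt w2_pos.ne', Ordinal.mul_add_div _ w2_pos.ne',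
    Ordinal.div_eq_zero_of_lt hb, add_zero]
  exact ha

theorem pt_div {a b : Ordinal.{0}} (hb : b < w2) : (w2 * a + b) / w2 = a := by
  rw [Ordinal.mul_add_div _ w2_pos.ne', Ordinal.div_eq_zero_of_lt hb, add_zero]

theorem pt_mod {a b : Ordinal.{0}} (hb : b < w2) : (w2 * a + b) % w2 = b := by
  rw [Ordinal.mul_add_mod_self, Ordinal.mod_eq_of_lt hb]

theorem lt_of_div_lt {x y : Ordinal.{0}} (h : x / w2 < y / w2) : x < y := by
  by_contra hcon
  exact absurd (Ordinal.div_le_left (not_lt.1 hcon) w2) (not_le.2 h)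

theorem lt_of_div_eq {x y : Ordinal.{0}} (h : x / w2 = y / w2) (h' : x % w2 < y % w2) : x < y := by
  rw [← Ordinal.div_add_mod x w2, ← Ordinal.div_add_mod y w2, h]
  exact add_lt_add_right h' _


/-- A set of points of `ω₂²` of type `< ω₂²` has only few unbounded sections. -/
theorem small_structure (S : Set (Iio (w2 ^ 2))) {γ : Ordinal.{0}} (hγ : γ < w2 ^ 2)
    (f : S → Ordinal.{0}) (hf : ∀ x y : S, x.1.1 < y.1.1 → f x < f y) (hb : ∀ x, f x < γ) :
    ∃ γ₀ < w2, ∀ a < w2, γ₀ ≤ a → ∃ β < w2, ∀ x ∈ S, x.1 / w2 = a → x.1 % w2 < β := by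
  by_contra hcon
  push Not at hcon
  -- the value of `f` beyond the section `a` is at least `ω₂ * θ`
  have claim : ∀ θ : Ordinal.{0}, θ < w2 → ∃ a < w2, ∀ x : S, a ≤ x.1.1 / w2 → w2 * θ ≤ f x := by
    intro θ
    induction θ using WellFoundedLT.induction with
    | ind θ ih =>
      intro hθ
      choose! A hA using ih
      obtain ⟨a₀, ha₀, hA₀⟩ := bdd' hθ A (fun c hc => (hA c hc (hc.trans hθ)).1)
      obtain ⟨a, ha, haa₀, hsec⟩ := hcon a₀ ha₀
      -- inside the section `a`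
      have claim2 : ∀ θ' < θ, ∀ β : Ordinal.{0}, β < w2 → ∃ x : S, x.1.1 / w2 = a ∧
          w2 * θ' + β ≤ f x := by
        intro θ' hθ' β
        induction β using WellFoundedLT.induction with
        | ind β ih2 =>
          intro hβ
          have hne : Nonempty S := by
            obtain ⟨x0, hx0S, -⟩ := hsec 0 w2_pos
            exact ⟨⟨x0, hx0S⟩⟩
          choose! X hX using ih2
          obtain ⟨b₀, hb₀, hX₀⟩ := bdd' hβ (fun β' => (X β').1.1 % w2) (fun c _ => mod_lt _)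
          obtain ⟨x, hxS, hxa, hxb⟩ := hsec b₀ hb₀
          refine ⟨⟨x, hxS⟩, hxa, ?_⟩
          refine le_of_forall_lt (fun ξ hξ => ?_)
          have hx0 : w2 * θ' ≤ f ⟨x, hxS⟩ := by
            refine (hA θ' hθ' (hθ'.trans hθ)).2 ⟨x, hxS⟩ ?_
            show A θ' ≤ x.1 / w2
            rw [hxa]
            exact le_trans (hA₀ θ' hθ').le haa₀
          rcases lt_or_ge ξ (w2 * θ') with h1 | h1
          · exact lt_of_lt_of_le h1 hx0
          · obtain ⟨β', rfl⟩ := exists_add_of_le h1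
            have hβ' : β' < β := lt_of_add_lt_add_left hξ
            have h2 := hX β' hβ' (hβ'.trans hβ)
            refine lt_of_le_of_lt h2.2 (hf _ _ ?_)
            refine lt_of_div_eq (h2.1.trans hxa.symm) ?_
            exact lt_of_lt_of_le (hX₀ β' hβ') hxb
      refine ⟨a + 1, succ_lt ha, fun y hy => le_of_forall_lt (fun ξ hξ => ?_)⟩
      have hθ' : ξ / w2 < θ := (Ordinal.lt_mul_iff_div_lt w2_pos.ne').1 hξ
      obtain ⟨x, hx1, hx2⟩ := claim2 (ξ / w2) hθ' (ξ % w2) (mod_lt ξ)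
      rw [Ordinal.div_add_mod] at hx2
      refine lt_of_le_of_lt hx2 (hf _ _ (lt_of_div_lt ?_))
      rw [hx1]
      exact lt_of_lt_of_le (lt_add_one a) hy
  have hγ' : γ / w2 + 1 < w2 := succ_lt (div_lt hγ)
  obtain ⟨a, ha, h⟩ := claim _ hγ'
  obtain ⟨a', ha', haa', hsec⟩ := hcon a ha
  obtain ⟨x, hxS, hxa, -⟩ := hsec 0 w2_pos
  have h1 := h ⟨x, hxS⟩ (by show a ≤ x.1 / w2; rw [hxa]; exact haa')
  have h2 : γ < w2 * (γ / w2 + 1) := by
    rw [Ordinal.lt_mul_iff_div_lt w2_pos.ne']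
    exact lt_add_one _
  exact absurd (hb ⟨x, hxS⟩) (not_lt.2 (h2.le.trans h1))

/-- closure points of a function on `ω₂` -/
theorem exists_closure (g : Ordinal.{0} → Ordinal.{0}) (hg : ∀ c < w2, g c < w2) {a : Ordinal.{0}}
    (ha : a < w2) : ∃ δ, a < δ ∧ δ < w2 ∧ ∀ c < δ, g c < δ := by
  have h1 : ∀ δ : Ordinal.{0}, δ < w2 → ∃ β < w2, (∀ c < δ, g c < β) ∧ δ < β := by
    intro δ hδ
    obtain ⟨β, hβ, h⟩ := bdd' hδ g (fun c hc => hg c (hc.trans hδ))
    refine ⟨max β (δ + 1), max_lt hβ (succ_lt hδ), fun c hc => lt_max_of_lt_left (h c hc),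
      lt_max_of_lt_right (lt_add_one δ)⟩
  choose! h hh using h1
  let s : ℕ → Ordinal.{0} := fun n => h^[n] (a + 1)
  have hs : ∀ n, s n < w2 := by
    intro n
    induction n with
    | zero => exact succ_lt ha
    | succ n ih =>
      show h^[n + 1] (a + 1) < w2
      rw [Function.iterate_succ_apply']
      exact (hh _ ih).1
  have hstep : ∀ n, s (n + 1) = h (s n) := fun n => Function.iterate_succ_apply' h n (a + 1)
  have hcard : #ℕ < w2.cof := by
    rw [cof_w2, lt_aleph_two, Cardinal.mk_nat]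
    exact Cardinal.aleph0_le_aleph 1
  refine ⟨⨆ n, s n, ?_, Ordinal.iSup_lt_of_lt_cof hcard hs, ?_⟩
  · exact lt_of_lt_of_le (lt_add_one a) (Ordinal.le_iSup s 0)
  · intro c hc
    obtain ⟨n, hn⟩ := Ordinal.lt_iSup_iff.1 hc
    refine lt_of_lt_of_le ((hh _ (hs n)).2.1 c hn) ?_
    rw [← hstep]
    exact Ordinal.le_iSup s (n + 1)

/-- the next closure point -/
noncomputable def nxt (g : Ordinal.{0} → Ordinal.{0}) (a : Ordinal.{0}) : Ordinal.{0} :=
  sInf {δ | a < δ ∧ δ < w2 ∧ ∀ c < δ, g c < δ}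

theorem nxt_spec (g : Ordinal.{0} → Ordinal.{0}) (hg : ∀ c < w2, g c < w2) {a : Ordinal.{0}}
    (ha : a < w2) : a < nxt g a ∧ nxt g a < w2 ∧ ∀ c < nxt g a, g c < nxt g a :=
  csInf_mem (s := {δ | a < δ ∧ δ < w2 ∧ ∀ c < δ, g c < δ}) (exists_closure g hg ha)

theorem nxt_eq (g : Ordinal.{0} → Ordinal.{0}) (hg : ∀ c < w2, g c < w2) {a a' : Ordinal.{0}}
    (ha : a < w2) (ha' : a' < w2) (h1 : a < a') (h2 : a' < nxt g a) : nxt g a' = nxt g a := by
  have s1 := nxt_spec g hg ha
  have s2 := nxt_spec g hg ha'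
  refine le_antisymm ?_ ?_
  · exact csInf_le' (s := {δ | a' < δ ∧ δ < w2 ∧ ∀ c < δ, g c < δ}) ⟨h2, s1.2⟩
  · exact csInf_le' (s := {δ | a < δ ∧ δ < w2 ∧ ∀ c < δ, g c < δ}) ⟨h1.trans s2.1, s2.2⟩


section Forward

variable {V : Type} (H : SimpleGraph V) (p : Ordinal.{0} → V × w1.ToType)

/-- the graph on the first coordinates -/
def R (a a' : Ordinal.{0}) : Prop := H.Adj (p a).1 (p a').1 ∧ (p a).2 ≠ (p a').2

theorem R_symm {a a' : Ordinal.{0}} (h : R H p a a') : R H p a' a := ⟨h.1.symm, h.2.symm⟩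

/-- the graph on `ω₂²` -/
def bigG : SimpleGraph (Set.Iio (w2 ^ 2)) where
  Adj x y := (R H p (x.1 / w2) (y.1 / w2)) ∧
    ((x.1 / w2 < y.1 / w2 ∧ y.1 / w2 < x.1 % w2 ∧ x.1 % w2 < y.1 % w2) ∨
      (y.1 / w2 < x.1 / w2 ∧ x.1 / w2 < y.1 % w2 ∧ y.1 % w2 < x.1 % w2))
  symm := ⟨fun x y h => ⟨R_symm H p h.1, h.2.symm⟩⟩
  loopless := ⟨fun x h => by
    rcases h.2 with h | h
    · exact lt_irrefl _ h.1
    · exact lt_irrefl _ h.1⟩

/-- the `ω₁`-colouring -/
noncomputable def bigG_coloring : (bigG H p).Coloring (Set.Iio w1) :=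
  SimpleGraph.Coloring.mk (fun x => Ordinal.ToType.mk.symm (p (x.1 / w2)).2) (by
    intro x y h heq
    exact h.1.2 (Ordinal.ToType.mk.symm.injective heq))

theorem mono_color (c : (bigG H p).Coloring ℕ) {a : Ordinal.{0}} (ha : a < w2) :
    ∃ n : ℕ, ∀ β < w2, ∃ b, ∃ hb : b < w2, β < b ∧ c ⟨w2 * a + b, pt_lt ha hb⟩ = n := by
  by_contra hcon
  push Not at hcon
  choose B hB hB' using hcon
  have hcard : #ℕ ≤ Cardinal.aleph.{0} 1 := by
    rw [Cardinal.mk_nat]
    exact Cardinal.aleph0_le_aleph 1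
  obtain ⟨β, hβ, h⟩ := bdd hcard B hB
  exact hB' (c ⟨w2 * a + β, pt_lt ha hβ⟩) β hβ (h _) rfl

theorem no_coloring (hp : ∀ v i, ∃ a < w2, p a = (v, i)) (h0 : IsEmpty (H.Coloring ℕ)) :
    IsEmpty ((bigG H p).Coloring ℕ) := by
  refine ⟨fun c => ?_⟩
  have h1 := fun a (ha : a < w2) => mono_color H p c ha
  choose! N hN using h1
  have key : ∀ a a' : Ordinal.{0}, a < w2 → a' < w2 → a < a' → R H p a a' → N a = N a' → False := by
    intro a a' ha ha' haa' hR hn
    obtain ⟨b, hb, hab, hcb⟩ := hN a ha a' ha'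
    obtain ⟨b', hb', hbb', hcb'⟩ := hN a' ha' b hb
    have hadj : (bigG H p).Adj ⟨w2 * a + b, pt_lt ha hb⟩ ⟨w2 * a' + b', pt_lt ha' hb'⟩ := by
      refine ⟨?_, Or.inl ?_⟩
      · show R H p ((w2 * a + b) / w2) ((w2 * a' + b') / w2)
        rw [pt_div hb, pt_div hb']
        exact hR
      · show (w2 * a + b) / w2 < (w2 * a' + b') / w2 ∧ (w2 * a' + b') / w2 < (w2 * a + b) % w2 ∧
          (w2 * a + b) % w2 < (w2 * a' + b') % w2
        rw [pt_div hb, pt_div hb', pt_mod hb, pt_mod hb']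
        exact ⟨haa', hab, hbb'⟩
    exact c.valid hadj (by rw [hcb, hcb', hn])
  choose A hA hA' using hp
  have hcol : ∀ v : V, ∃ i j : w1.ToType, i ≠ j ∧ N (A v i) = N (A v j) := by
    intro v
    by_contra hcon
    push Not at hcon
    have hinj : Function.Injective (fun i => N (A v i)) := by
      intro i j hij
      by_contra hne
      exact hcon i j hne hij
    have := Cardinal.mk_le_of_injective hinj
    rw [Cardinal.mk_toType, Cardinal.card_ord, Cardinal.mk_nat] at this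
    exact absurd this (not_le.2 (Cardinal.aleph0_lt_aleph_one))
  choose I J hIJ hNIJ using hcol
  refine h0.false (SimpleGraph.Coloring.mk (fun v => N (A v (I v))) ?_)
  intro v w hvw heq
  obtain ⟨j, hj, hNj⟩ : ∃ j : w1.ToType, I v ≠ j ∧ N (A w j) = N (A w (I w)) := by
    by_cases h : I v = I w
    · exact ⟨J w, by rw [h]; exact hIJ w, (hNIJ w).symm⟩
    · exact ⟨I w, h, rfl⟩
  have hR : R H p (A v (I v)) (A w j) := by
    refine ⟨?_, ?_⟩
    · rw [hA', hA']; exact hvw
    · rw [hA', hA']; exact hj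
  have hN' : N (A v (I v)) = N (A w j) := by rw [hNj]; exact heq
  rcases lt_trichotomy (A v (I v)) (A w j) with h | h | h
  · exact key _ _ (hA _ _) (hA _ _) h hR hN'
  · rw [h] at hR
    exact hR.2 rfl
  · exact key _ _ (hA _ _) (hA _ _) h (R_symm H p hR) hN'.symm

theorem small_color (hs : ∀ W : Set V, #W ≤ Cardinal.aleph 1 → Nonempty ((H.induce W).Coloring ℕ))
    {δ : Ordinal.{0}} (hδ : δ < w2) :
    ∃ f : Ordinal.{0} → ℕ, ∀ a < δ, ∀ a' < δ, R H p a a' → f a ≠ f a' := by
  have hcard : #(Set.range (fun i : δ.ToType => (p (Ordinal.ToType.mk.symm i).1).1)) ≤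
      Cardinal.aleph 1 := by
    refine le_trans Cardinal.mk_range_le ?_
    rw [Cardinal.mk_toType]
    exact card_lt_of_lt hδ
  obtain ⟨c⟩ := hs _ hcard
  have hmem : ∀ a < δ, (p a).1 ∈ Set.range (fun i : δ.ToType => (p (Ordinal.ToType.mk.symm i).1).1) := by
    intro a ha
    exact ⟨Ordinal.ToType.mk ⟨a, ha⟩, by simp⟩
  classical
  let f : Ordinal.{0} → ℕ := fun a => if h : a < δ then c ⟨(p a).1, hmem a h⟩ else 0
  refine ⟨f, fun a ha a' ha' hR => ?_⟩
  have e1 : f a = c ⟨(p a).1, hmem a ha⟩ := dif_pos ha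
  have e2 : f a' = c ⟨(p a').1, hmem a' ha'⟩ := dif_pos ha'
  rw [e1, e2]
  exact c.valid hR.1

theorem small_coloring
    (hs : ∀ W : Set V, #W ≤ Cardinal.aleph 1 → Nonempty ((H.induce W).Coloring ℕ))
    (S : Set (Iio (w2 ^ 2))) {γ : Ordinal.{0}} (hγ : γ < w2 ^ 2)
    (f : S → Ordinal.{0}) (hf : ∀ x y : S, x.1.1 < y.1.1 → f x < f y) (hb : ∀ x, f x < γ) :
    Nonempty (((bigG H p).induce S).Coloring ℕ) := by
  obtain ⟨γ₀, hγ₀, hst⟩ := small_structure S hγ f hf hb
  choose! g₀ hg₀ hg₀' using hst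
  classical
  let g : Ordinal.{0} → Ordinal.{0} := fun a => if a < w2 ∧ γ₀ ≤ a then g₀ a else 0
  have hg : ∀ c < w2, g c < w2 := by
    intro c hc
    show (if c < w2 ∧ γ₀ ≤ c then g₀ c else 0) < w2
    split_ifs with h
    · exact hg₀ c h.1 h.2
    · exact w2_pos
  choose! F hF using fun δ (hδ : δ < w2) => small_color H p hs hδ
  let col : S → ℕ × ℕ := fun x =>
    if x.1.1 / w2 < γ₀ then (0, F γ₀ (x.1.1 / w2)) else (1, F (nxt g (x.1.1 / w2)) (x.1.1 / w2))
  have key : ∀ x y : S, R H p (x.1.1 / w2) (y.1.1 / w2) → x.1.1 / w2 < y.1.1 / w2 →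
      y.1.1 / w2 < x.1.1 % w2 → x.1.1 % w2 < y.1.1 % w2 → col x ≠ col y := by
    intro x y hR h1 h2 h3 heq
    have hxlt : x.1.1 / w2 < w2 := div_lt x.1.2
    have hylt : y.1.1 / w2 < w2 := div_lt y.1.2
    by_cases hy : y.1.1 / w2 < γ₀
    · have hx : x.1.1 / w2 < γ₀ := h1.trans hy
      have e1 : col x = (0, F γ₀ (x.1.1 / w2)) := if_pos hx
      have e2 : col y = (0, F γ₀ (y.1.1 / w2)) := if_pos hy
      rw [e1, e2] at heq
      exact hF γ₀ hγ₀ _ hx _ hy hR (Prod.ext_iff.1 heq).2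
    · have e2 : col y = (1, F (nxt g (y.1.1 / w2)) (y.1.1 / w2)) := if_neg hy
      by_cases hx : x.1.1 / w2 < γ₀
      · have e1 : col x = (0, F γ₀ (x.1.1 / w2)) := if_pos hx
        rw [e1, e2] at heq
        exact absurd (Prod.ext_iff.1 heq).1 (by norm_num)
      · have e1 : col x = (1, F (nxt g (x.1.1 / w2)) (x.1.1 / w2)) := if_neg hx
        rw [e1, e2] at heq
        have s1 := nxt_spec g hg hxlt
        have hgx : g (x.1.1 / w2) = g₀ (x.1.1 / w2) := if_pos ⟨hxlt, not_lt.1 hx⟩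
        have h4 : x.1.1 % w2 < g (x.1.1 / w2) := by
          rw [hgx]
          exact hg₀' _ hxlt (not_lt.1 hx) x.1 x.2 rfl
        have h5 : y.1.1 / w2 < nxt g (x.1.1 / w2) :=
          (h2.trans h4).trans (s1.2.2 _ s1.1)
        have h6 := nxt_eq g hg hxlt hylt h1 h5
        rw [h6] at heq
        exact hF _ s1.2.1 _ s1.1 _ h5 hR (Prod.ext_iff.1 heq).2
  let enc : ℕ × ℕ → ℕ := fun q => Nat.pair q.1 q.2
  have henc : Function.Injective enc := by
    intro q q' h
    have := Nat.pair_eq_pair.1 h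
    exact Prod.ext this.1 this.2
  refine ⟨SimpleGraph.Coloring.mk (fun x => enc (col x)) ?_⟩
  intro x y hxy heq
  have heq' := henc heq
  have hadj : (bigG H p).Adj x.1 y.1 := hxy
  rcases hadj.2 with h | h
  · exact key x y hadj.1 h.1 h.2.1 h.2.2 heq'
  · exact key y x (R_symm H p hadj.1) h.1 h.2.1 h.2.2 heq'.symm

end Forward

theorem Q1_of_incompact (h : Incompact) : Q1 := by
  obtain ⟨V, H, hV, h0, hs⟩ := h
  have hne : Nonempty V := by
    by_contra hcon
    rw [not_nonempty_iff] at hcon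
    exact h0.false (SimpleGraph.Coloring.mk (fun _ => 0) (fun {v} => isEmptyElim v))
  have hcard : #(V × w1.ToType) ≤ #(w2.ToType) := by
    rw [Cardinal.mk_prod, Cardinal.lift_id, Cardinal.lift_id, hV, Cardinal.mk_toType,
      Cardinal.mk_toType, Cardinal.card_ord, Cardinal.card_ord]
    rw [Cardinal.mul_eq_left (Cardinal.aleph0_le_aleph 2) ?_ ?_]
    · rw [Cardinal.aleph_le_aleph]
      exact one_le_two
    · exact (Cardinal.aleph_pos 1).ne'
  obtain ⟨i, hi⟩ := (Cardinal.le_def _ _).1 hcard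
  have hne1 : Nonempty (w1.ToType) := by
    rw [← Cardinal.mk_ne_zero_iff, Cardinal.mk_toType, Cardinal.card_ord]
    exact (Cardinal.aleph_pos 1).ne'
  classical
  let p : Ordinal.{0} → V × w1.ToType := fun a =>
    if h : a < w2 then Function.invFun i (Ordinal.ToType.mk ⟨a, h⟩) else Classical.arbitrary _
  have hp : ∀ v i, ∃ a < w2, p a = (v, i) := by
    intro v k
    refine ⟨(Ordinal.ToType.mk.symm (i (v, k))).1, (Ordinal.ToType.mk.symm (i (v, k))).2, ?_⟩
    have h1 : (Ordinal.ToType.mk.symm (i (v, k))).1 < w2 := (Ordinal.ToType.mk.symm (i (v, k))).2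
    show (if h : (Ordinal.ToType.mk.symm (i (v, k))).1 < w2 then
      Function.invFun i (Ordinal.ToType.mk ⟨_, h⟩) else Classical.arbitrary _) = _
    rw [dif_pos h1]
    have h2 : (Ordinal.ToType.mk ⟨(Ordinal.ToType.mk.symm (i (v, k))).1, h1⟩ : w2.ToType)
        = i (v, k) := Ordinal.ToType.mk.apply_symm_apply _
    rw [h2]
    exact Function.leftInverse_invFun hi (v, k)
  refine ⟨bigG H p, ⟨bigG_coloring H p⟩, no_coloring H p hp h0, ?_⟩
  rintro S ⟨γ, hγ, f, hf, hb⟩
  exact small_coloring H p hs S hγ f hf hb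


theorem small_type {α : Type} [LinearOrder α] [WellFoundedLT α] (hα : #α ≤ Cardinal.aleph 1) :
    ∃ γ < w2, ∃ f : α → Ordinal.{0}, (∀ x y, x < y → f x < f y) ∧ ∀ x, f x < γ := by
  let r : α → α → Prop := fun x y => x < y
  have hr : IsWellOrder α r := inferInstanceAs (IsWellOrder α (fun x y => x < y))
  refine ⟨Ordinal.type r, ?_, fun x => Ordinal.typein r x, ?_, ?_⟩
  · rw [Cardinal.lt_ord, Ordinal.card_type, lt_aleph_two]
    exact hα
  · intro x y h
    exact (Ordinal.typein_lt_typein r).2 h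
  · intro x
    exact Ordinal.typein_lt_type r x

theorem incompact_of_Q1small (h : Q1small) : Incompact := by
  obtain ⟨G, -, h0, hs⟩ := h
  have hcard : (w2 ^ 2).card = Cardinal.aleph 2 := by
    rw [sq_eq, Ordinal.card_mul, Cardinal.card_ord,
      Cardinal.mul_eq_self (Cardinal.aleph0_le_aleph 2)]
  let e : (w2 ^ 2).ToType ≃ Set.Iio (w2 ^ 2) := Ordinal.ToType.mk.symm.toEquiv
  refine ⟨(w2 ^ 2).ToType, G.comap e, ?_, ?_, ?_⟩
  · rw [Cardinal.mk_toType, hcard]
  · refine ⟨fun c => h0.false (SimpleGraph.Coloring.mk (fun x => c (e.symm x)) ?_)⟩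
    intro x y hxy
    refine c.valid ?_
    show G.Adj (e (e.symm x)) (e (e.symm y))
    rw [e.apply_symm_apply, e.apply_symm_apply]
    exact hxy
  · intro W hW
    have hS : #(e.symm ⁻¹' W : Set (Set.Iio (w2 ^ 2))) ≤ Cardinal.aleph.{1} 1 := by
      have h1 : Cardinal.lift.{1} #W = #(e.symm ⁻¹' W : Set (Set.Iio (w2 ^ 2))) := by
        rw [← Cardinal.lift_id'.{0, 1} #(e.symm ⁻¹' W : Set (Set.Iio (w2 ^ 2)))]
        refine Cardinal.lift_mk_eq'.2 ⟨⟨fun k => ⟨e k.1, ?_⟩, fun s => ⟨e.symm s.1, s.2⟩,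
          fun k => ?_, fun s => ?_⟩⟩
        · show e.symm (e k.1) ∈ W
          rw [e.symm_apply_apply]
          exact k.2
        · exact Subtype.ext (e.symm_apply_apply _)
        · exact Subtype.ext (e.apply_symm_apply _)
      rw [← h1]
      have h2 := Cardinal.lift_le.{1}.2 hW
      refine h2.trans (le_of_eq ?_)
      rw [Cardinal.lift_aleph, Ordinal.lift_one]
    obtain ⟨c⟩ := hs _ hS
    have hmem2 : ∀ x : W, e x.1 ∈ (e.symm ⁻¹' W : Set (Set.Iio (w2 ^ 2))) := by
      intro x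
      show e.symm (e x.1) ∈ W
      rw [e.symm_apply_apply]
      exact x.2
    exact ⟨SimpleGraph.Coloring.mk (fun x => c ⟨e x.1, hmem2 x⟩) (fun hxy => c.valid hxy)⟩

/-- From the pair function to the graph. -/
theorem incompact_of_pair (h : PairFunction) : Incompact := by
  obtain ⟨c, hc⟩ := h
  let K := w2.ToType
  let H : SimpleGraph K :=
    { Adj := fun v w => v ≠ w ∧ ∀ x, v < x → w < x → c v x ≠ c w x
      symm := ⟨fun v w h => ⟨h.1.symm, fun x h1 h2 => (h.2 x h2 h1).symm⟩⟩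
      loopless := ⟨fun v h => h.1 rfl⟩ }
  refine ⟨K, H, ?_, ⟨fun f => ?_⟩, fun W hW => ?_⟩
  · show #(w2.ToType) = _
    rw [Cardinal.mk_toType, Cardinal.card_ord]
  · obtain ⟨v, w, hvw, hf, hx⟩ := hc f
    have hadj : H.Adj v w := ⟨hvw.ne, fun x _ h2 => hx x h2⟩
    exact f.valid hadj hf
  · obtain ⟨β, hβ, h⟩ := bdd hW (fun w => (Ordinal.ToType.mk.symm w.1).1)
      (fun w => (Ordinal.ToType.mk.symm w.1).2)
    let x : K := Ordinal.ToType.mk ⟨β, hβ⟩
    have hlt : ∀ w : W, w.1 < x := by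
      intro w
      rw [← Ordinal.ToType.mk.symm.lt_iff_lt, OrderIso.symm_apply_apply]
      exact h w
    refine ⟨SimpleGraph.Coloring.mk (fun w => c w.1 x) ?_⟩
    intro w w' hww'
    have hadj : H.Adj w.1 w'.1 := hww'
    exact hadj.2 x (hlt w) (hlt w')

/-- From the graph to the pair function. -/
theorem pair_of_incompact (h : Incompact) : PairFunction := by
  obtain ⟨V, H, hV, h0, hs⟩ := h
  have hcard : #(w2.ToType) = #V := by
    rw [hV, Cardinal.mk_toType, Cardinal.card_ord]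
  obtain ⟨e⟩ := Cardinal.eq.1 hcard
  have hsmall : ∀ x : w2.ToType, ∃ f : w2.ToType → ℕ, ∀ v w, v < x → w < x → H.Adj (e v) (e w) →
      f v ≠ f w := by
    intro x
    have h1 : #(e '' (Set.Iio x)) ≤ Cardinal.aleph 1 := by
      rw [← lt_aleph_two]
      refine lt_of_le_of_lt Cardinal.mk_image_le ?_
      have h2 := Cardinal.mk_Iio_lt x (by
        rw [Cardinal.mk_toType, Cardinal.card_ord]
        exact (Ordinal.type_toType w2).symm)
      rwa [Cardinal.mk_toType, Cardinal.card_ord] at h2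
    obtain ⟨c⟩ := hs _ h1
    classical
    let f : w2.ToType → ℕ := fun v => if h : v < x then c ⟨e v, ⟨v, h, rfl⟩⟩ else 0
    refine ⟨f, fun v w hv hw hadj => ?_⟩
    have e1 : f v = c ⟨e v, ⟨v, hv, rfl⟩⟩ := dif_pos hv
    have e2 : f w = c ⟨e w, ⟨w, hw, rfl⟩⟩ := dif_pos hw
    rw [e1, e2]
    exact c.valid hadj
  choose F hF using hsmall
  refine ⟨fun v x => F x v, fun f => ?_⟩
  by_contra hcon
  push Not at hcon
  have key : ∀ v w, v < w → f v = f w → ¬ H.Adj (e v) (e w) := by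
    intro v w hvw hf hadj
    obtain ⟨x, hx, heq⟩ := hcon v w hvw hf
    exact hF x v w (hvw.trans hx) hx hadj heq
  refine h0.false (SimpleGraph.Coloring.mk (fun v => f (e.symm v)) ?_)
  intro v w hvw heq
  have hadj : H.Adj (e (e.symm v)) (e (e.symm w)) := by
    rw [e.apply_symm_apply, e.apply_symm_apply]
    exact hvw
  rcases lt_trichotomy (e.symm v) (e.symm w) with h | h | h
  · exact key _ _ h heq hadj
  · exact hvw.ne (e.symm.injective h)
  · exact key _ _ h heq.symm hadj.symm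

/-- A set of at most `ℵ₁` points of `ω₂²` has order type less than `ω₂`. -/
theorem small_set (S : Set (Set.Iio (w2 ^ 2))) (hS : #S ≤ Cardinal.aleph.{1} 1) :
    ∃ γ : Ordinal.{0}, γ < w2 ^ 2 ∧ ∃ f : S → Ordinal.{0},
      (∀ x y : S, x.1.1 < y.1.1 → f x < f y) ∧ ∀ x : S, f x < γ := by
  have hle : w2 ≤ w2 ^ 2 := by
    rw [sq_eq]
    exact Ordinal.le_mul_left _ w2_pos
  let W : Set ((w2 ^ 2).ToType) := {k | Ordinal.ToType.mk.symm k ∈ S}
  have hWS : Cardinal.lift.{1} #W = #S := by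
    rw [← Cardinal.lift_id'.{0, 1} #S]
    refine Cardinal.lift_mk_eq'.2 ⟨⟨fun k => ⟨Ordinal.ToType.mk.symm k.1, k.2⟩,
      fun s => ⟨Ordinal.ToType.mk s.1, ?_⟩, fun k => ?_, fun s => ?_⟩⟩
    · show Ordinal.ToType.mk.symm (Ordinal.ToType.mk s.1) ∈ S
      rw [OrderIso.symm_apply_apply]
      exact s.2
    · exact Subtype.ext (Ordinal.ToType.mk.apply_symm_apply _)
    · exact Subtype.ext (Ordinal.ToType.mk.symm_apply_apply _)
  have hW : #W ≤ Cardinal.aleph 1 := by
    rw [← Cardinal.lift_le.{1}, hWS]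
    refine hS.trans (le_of_eq ?_)
    rw [Cardinal.lift_aleph, Ordinal.lift_one]
  obtain ⟨γ, hγ, f, hf, hb⟩ := small_type hW
  have hmem : ∀ x : S, Ordinal.ToType.mk x.1 ∈ W := by
    intro x
    show Ordinal.ToType.mk.symm (Ordinal.ToType.mk x.1) ∈ S
    rw [OrderIso.symm_apply_apply]
    exact x.2
  exact ⟨γ, lt_of_lt_of_le hγ hle, fun x => f ⟨Ordinal.ToType.mk x.1, hmem x⟩,
    fun x y hxy => hf _ _ (Ordinal.ToType.mk.strictMono hxy), fun x => hb _⟩

theorem Q1small_of_Q1 (h : Q1) : Q1small := by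
  obtain ⟨G, h1, h2, h3⟩ := h
  exact ⟨G, h1, h2, fun S hS => h3 S (small_set S hS)⟩

/-- In ZFC the following statements are equivalent: Q1; its variant for sets of at most `ℵ₁`
vertices; the existence of a graph with `ℵ₂` vertices and uncountable chromatic number all of whose
subgraphs on at most `ℵ₁` vertices are countably chromatic; the existence of the pair function. -/
theorem result : List.TFAE [Q1, Q1small, Incompact, PairFunction] := by
  tfae_have 1 → 2 := Q1small_of_Q1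
  tfae_have 2 → 3 := incompact_of_Q1small
  tfae_have 3 → 1 := Q1_of_incompact
  tfae_have 3 → 4 := pair_of_incompact
  tfae_have 4 → 3 := incompact_of_pair
  tfae_finish

end Pool.Agent.Results.MP_d06690_lc.Reduction
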