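import Pool.Agent.Lib.H45R.Reduction
import Pool.Agent.Lib.IncompactB.Hitting

/-!
# Graphs on `ω₂²` with chromatic number `ℵ₁` (MP_d06690_lc, Q1): the case `𝔟 ≤ ℵ₂`

In ZFC: Q1 has a positive answer, unless every family of at most `ℵ₂` functions from `ω` to `ω` is
bounded in the order of eventual domination (that is, unless `𝔟 > ℵ₂`).  In particular Q1 has a
positive answer if `2^ℵ₀ ≤ ℵ₂`.

The graph.  Let `S` be the set of the points of cofinality `ω₁` of `ω₂`, and fix a ladder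
`h_δ : ω₁ → δ` for `δ ∈ S`.  Vertices are the triples `(δ, i, F)` with `δ ∈ S`, `i < ω₁` and
`F 0 < F 1 < ...` a sequence of nonempty finite subsets of `δ` whose union passes the points
`h_δ(j)`, `j < i` (only the sequences coded by the functions of an unbounded family are used).
Vertices `(δ, i, F)` and `(δ', i', F')` are joined if `i' < i`, `δ` belongs to some `F' k'`, and for
some `k` the sequences `F, F'` agree below `k` and all the points below `δ` of the sets `F' m`,
`m ≥ k`, belong to `F k`.  See `Pool.Agent.Lib.IncompactB`.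
-/

open Cardinal Ordinal Set

namespace Pool.Agent.Results.MP_d06690_lc.Unbounded

open Pool.Agent.Lib.IncompactB Pool.Agent.Results.MP_d06690_lc.Reduction

theorem reg_succ (κ : Cardinal.{0}) (hκ : ℵ₀ ≤ κ) : Reg κ (Order.succ κ).ord.ToType := by
  have hreg : (Order.succ κ).IsRegular := isRegular_succ hκ
  refine ⟨hκ, fun x => ?_, fun ι f hι => ?_⟩
  · have h1 : #(Set.Iio x) < Order.succ κ := by
      have h2 := Cardinal.mk_Iio_lt x (by
        rw [Cardinal.mk_toType, Cardinal.card_ord]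
        exact (Ordinal.type_toType _).symm)
      rwa [Cardinal.mk_toType, Cardinal.card_ord] at h2
    rw [Order.lt_succ_iff] at h1
    rw [← Set.Iio_insert]
    refine (Cardinal.mk_insert_le).trans ?_
    exact Cardinal.add_le_of_le hκ h1 (Cardinal.one_le_aleph0.trans hκ)
  · have h1 : #ι < (Order.succ κ).ord.cof := by
      rw [hreg.cof_ord, Order.lt_succ_iff]
      exact hι
    let f' : ι → Ordinal.{0} := fun j => (Ordinal.ToType.mk.symm (f j)).1
    have hf' : ∀ j, f' j < (Order.succ κ).ord := fun j => (Ordinal.ToType.mk.symm (f j)).2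
    have h2 : (⨆ i, f' i + 1) < (Order.succ κ).ord := Ordinal.iSup_add_one_lt_of_lt_cof h1 hf'
    refine ⟨Ordinal.ToType.mk ⟨_, h2⟩, fun j => ?_⟩
    rw [← Ordinal.ToType.mk.symm.lt_iff_lt, OrderIso.symm_apply_apply]
    exact Ordinal.lt_iSup_add_one f' j

theorem reg_w2 : Reg (#(w1.ToType)) (w2.ToType) := by
  have h := reg_succ (Cardinal.aleph.{0} 1) (Cardinal.aleph0_le_aleph 1)
  rw [← aleph_two_eq] at h
  rw [Cardinal.mk_toType, Cardinal.card_ord]
  exact h

theorem reg_w1 : Reg ℵ₀ (w1.ToType) := by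
  have h := reg_succ ℵ₀ le_rfl
  rw [Cardinal.succ_aleph0] at h
  exact h

theorem exists_reals : ∃ r : w1.ToType → ℕ → Bool, Function.Injective r := by
  have h : #(w1.ToType) ≤ #(ℕ → Bool) := by
    rw [Cardinal.mk_toType, Cardinal.card_ord]
    have h1 : #(ℕ → Bool) = 𝔠 := by
      simp
    rw [h1]
    exact Cardinal.aleph_one_le_continuum
  obtain ⟨f⟩ := (Cardinal.le_def _ _).1 h
  exact ⟨f, f.injective⟩

/-- The graph. -/
def graph (C : Choices w2.ToType w1.ToType) (𝓕 : Set (ℕ → Finset w1.ToType)) :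
    SimpleGraph (w2.ToType × w1.ToType × 𝓕) where
  Adj p q := Good C.h (C.vx p) ∧ Good C.h (C.vx q) ∧
    (Edge (C.vx p) (C.vx q) ∨ Edge (C.vx q) (C.vx p))
  symm := ⟨fun _ _ h => ⟨h.2.1, h.1, h.2.2.symm⟩⟩
  loopless := ⟨fun _ h => by
    rcases h.2.2 with h | h
    · exact lt_irrefl _ h.1
    · exact lt_irrefl _ h.1⟩

/-- Incompactness of the countable chromatic number at `ℵ₂` from a hitting family of size `≤ ℵ₂`. -/
theorem incompact_of_hitting (𝓕 : Set (ℕ → Finset w1.ToType)) (hc𝓕 : #𝓕 ≤ Cardinal.aleph 2)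
    (h𝓕 : Hitting 𝓕) : Incompact := by
  obtain ⟨C⟩ := exists_choices reg_w2 reg_w1
  obtain ⟨r₀, hr₀⟩ := exists_reals
  refine ⟨w2.ToType × w1.ToType × 𝓕, graph C 𝓕, ?_, ?_, ?_⟩
  · have hne : Nonempty 𝓕 := by
      obtain ⟨F, hF, -⟩ := h𝓕 (fun _ => ∅)
      exact ⟨⟨F, hF⟩⟩
    rw [Cardinal.mk_prod, Cardinal.mk_prod]
    simp only [Cardinal.lift_id, Cardinal.mk_toType, Cardinal.card_ord]
    refine Cardinal.mul_eq_left (Cardinal.aleph0_le_aleph 2) ?_ ?_
    · refine Cardinal.mul_le_of_le (Cardinal.aleph0_le_aleph 2) ?_ hc𝓕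
      rw [Cardinal.aleph_le_aleph]
      exact one_le_two
    · refine mul_ne_zero (Cardinal.aleph_pos 1).ne' ?_
      rwa [Cardinal.mk_ne_zero_iff]
  · refine ⟨fun c => uncountable C c reg_w2 reg_w1 h𝓕 (fun p q hp hq hE => ?_)⟩
    exact c.valid ⟨hp, hq, Or.inl hE⟩
  · intro U hU
    obtain ⟨γ, hγ⟩ := reg_w2.bdd U (fun q => q.1.1) (by
      rw [Cardinal.mk_toType, Cardinal.card_ord]
      exact hU)
    obtain ⟨c, hc⟩ := compact reg_w2 reg_w1 r₀ hr₀ C.h γ
    refine ⟨SimpleGraph.Coloring.mk (fun q => c (C.vx q.1)) ?_⟩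
    intro p q hpq
    have hadj : (graph C 𝓕).Adj p.1 q.1 := hpq
    obtain ⟨hp, hq, hE⟩ := hadj
    rcases hE with hE | hE
    · exact hc _ _ hp hq (hγ p).le (hγ q).le hE
    · exact (hc _ _ hq hp (hγ q).le (hγ p).le hE).symm

/-- Incompactness of the countable chromatic number at `ℵ₂` from an unbounded family of functions of
size `≤ ℵ₂`. -/
theorem incompact_of_unbounded (D : Set (ℕ → ℕ)) (hDc : #D ≤ Cardinal.aleph 2)
    (hD : ¬ ∃ b : ℕ → ℕ, ∀ d ∈ D, ∀ᶠ k in Filter.atTop, d k ≤ b k) : Incompact := by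
  obtain ⟨e, he⟩ := exists_enums reg_w1
  refine incompact_of_hitting (fam e D) ?_ (hitting_of_unbounded reg_w1 e he D hD)
  refine Cardinal.mk_range_le.trans ?_
  rw [Cardinal.mk_prod]
  simp only [Cardinal.lift_id, Cardinal.mk_toType, Cardinal.card_ord]
  refine Cardinal.mul_le_of_le (Cardinal.aleph0_le_aleph 2) ?_ hDc
  rw [Cardinal.aleph_le_aleph]
  exact one_le_two

theorem univ_unbounded :
    ¬ ∃ b : ℕ → ℕ, ∀ d ∈ (Set.univ : Set (ℕ → ℕ)), ∀ᶠ k in Filter.atTop, d k ≤ b k := by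
  rintro ⟨b, hb⟩
  obtain ⟨k, hk⟩ := (hb (fun k => b k + 1) (Set.mem_univ _)).exists
  exact absurd hk (by simp)

/-- **Theorem** (ZFC). Q1 has a positive answer, or every family of at most `ℵ₂` functions from `ω` to
`ω` is eventually dominated by a single function (that is, `𝔟 > ℵ₂`).  In particular Q1 has a positive
answer if `2^ℵ₀ ≤ ℵ₂`. -/
theorem result :
    (Q1 ∨ ∀ D : Set (ℕ → ℕ), #D ≤ Cardinal.aleph 2 →
      ∃ b : ℕ → ℕ, ∀ d ∈ D, ∀ᶠ k in Filter.atTop, d k ≤ b k) ∧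
    (Cardinal.continuum.{0} ≤ Cardinal.aleph 2 → Q1) := by
  refine ⟨?_, fun h => ?_⟩
  · by_contra hcon
    rw [not_or] at hcon
    obtain ⟨h1, h2⟩ := hcon
    refine h2 (fun D hD => ?_)
    by_contra h3
    exact h1 (Q1_of_incompact (incompact_of_unbounded D hD h3))
  · refine Q1_of_incompact (incompact_of_unbounded Set.univ ?_ univ_unbounded)
    refine le_trans (le_of_eq ?_) h
    rw [Cardinal.mk_univ]
    simp

end Pool.Agent.Results.MP_d06690_lc.Unbounded
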